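import Pool.Agent.Helper99.EXC.GoalsK

/-!
# EXC, part K: packet RHO (one variable calculus)
-/

open Finset MeasureTheory

namespace Pool.Agent.Helper40.EXC

open Pool.Agent.Helper99.EXC

theorem lam_nonneg {a : ℝ} (ha : 0 < a) (θ : ℝ) : 0 ≤ lam a θ := by
  unfold lam
  have := Real.cos_le_one θ
  exact mul_nonneg ha.le (by linarith)

theorem lam_le {a : ℝ} (ha : 0 < a) (θ : ℝ) : lam a θ ≤ 2 * a := by
  unfold lam
  have := Real.neg_one_le_cos θ
  nlinarith

theorem dd_sq {a : ℝ} (ha : 0 < a) (ha1 : a < 1) (θ : ℝ) :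
    dd a θ ^ 2 = lam a θ ^ 2 + 2 * (1 - a) * lam a θ := by
  unfold dd
  rw [Real.sq_sqrt]
  have := lam_nonneg ha θ
  have h : 0 < 1 - a := by linarith
  positivity

theorem lam_le_dd {a : ℝ} (ha : 0 < a) (ha1 : a < 1) (θ : ℝ) : lam a θ ≤ dd a θ := by
  unfold dd
  apply Real.le_sqrt_of_sq_le
  have := lam_nonneg ha θ
  have h : 0 < 1 - a := by linarith
  have : 0 ≤ 2 * (1 - a) * lam a θ := by positivity
  linarith

theorem dd_lt {a : ℝ} (ha : 0 < a) (ha1 : a < 1) (θ : ℝ) : dd a θ < lam a θ + (1 - a) := by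
  have hl := lam_nonneg ha θ
  unfold dd
  rw [Real.sqrt_lt' (by linarith)]
  nlinarith

theorem rho_eq {a : ℝ} (ha1 : a < 1) (θ : ℝ) :
    rho a θ = (1 - a + lam a θ - dd a θ) / (1 - a) := by
  unfold rho
  have h : (1 : ℝ) - a ≠ 0 := by linarith
  field_simp
  ring

theorem RHO : RHO_stmt := by
  intro a ha ha1
  have hb : 0 < 1 - a := by linarith
  have hb0 : (1 : ℝ) - a ≠ 0 := hb.ne'
  have hrho_pos : ∀ θ, 0 < rho a θ := by
    intro θ
    rw [rho_eq ha1]
    have := dd_lt ha ha1 θ
    exact div_pos (by linarith) hb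
  have hcd : Continuous (dd a) := by
    unfold dd lam
    fun_prop
  refine ⟨hcd, ?_, ?_, ?_, fun θ => Real.sqrt_nonneg _, hrho_pos, ?_, ?_, ?_, ?_⟩
  · have hl : Continuous (lam a) := by
      unfold lam
      fun_prop
    show Continuous (fun θ => 1 + (lam a θ - dd a θ) / (1 - a))
    exact continuous_const.add ((hl.sub hcd).div_const _)
  · intro θ
    unfold dd lam
    rw [Real.cos_neg]
  · intro θ
    unfold rho dd lam
    rw [Real.cos_neg]
  · intro θ
    rw [rho_eq ha1, div_le_one hb]
    have := lam_le_dd ha ha1 θ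
    linarith
  · intro θ
    have h1 := dd_sq ha ha1 θ
    rw [rho_eq ha1]
    field_simp
    linear_combination h1
  · intro θ
    have h1 := dd_sq ha ha1 θ
    rw [rho_eq ha1]
    field_simp
    linear_combination h1
  · obtain ⟨c, hc⟩ : ∃ c : ℝ, c = 2 * a * (1 - a) / Real.pi ^ 2 := ⟨_, rfl⟩
    obtain ⟨s, hs⟩ : ∃ s : ℝ, s = Real.sqrt (a * (1 - a)) := ⟨_, rfl⟩
    have hpi := Real.pi_pos
    have hc0 : 0 < c := by rw [hc]; positivity
    have hs0 : 0 < s := by rw [hs]; exact Real.sqrt_pos.2 (by positivity)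
    have hs2 : s ^ 2 = a * (1 - a) := by rw [hs]; exact Real.sq_sqrt (by positivity)
    have hlam_up : ∀ θ : ℝ, lam a θ ≤ a * (θ ^ 2 / 2) := by
      intro θ
      unfold lam
      have := Real.one_sub_sq_div_two_le_cos (x := θ)
      exact mul_le_mul_of_nonneg_left (by linarith) ha.le
    have hdd_up : ∀ θ : ℝ, dd a θ ≤ |θ| := by
      intro θ
      apply abs_le_of_sq_le_sq' _ (abs_nonneg θ) |>.2
      rw [sq_abs, dd_sq ha ha1]
      have h1 := lam_le ha θ
      have h2 := hlam_up θ
      have h3 := lam_nonneg ha θ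
      nlinarith [sq_nonneg θ]
    have hkey : ∀ θ : ℝ, |θ| ≤ Real.pi → c * |θ| ≤ dd a θ - lam a θ := by
      intro θ hθ
      rcases eq_or_ne θ 0 with rfl | h0
      · rw [abs_zero, mul_zero]
        linarith [lam_le_dd ha ha1 0]
      · have hθ0 : 0 < |θ| := abs_pos.2 h0
        have h1 := Real.cos_le_one_sub_mul_cos_sq hθ
        have h2 : a * (2 / Real.pi ^ 2 * θ ^ 2) ≤ lam a θ := by
          unfold lam
          exact mul_le_mul_of_nonneg_left (by linarith) ha.le
        have h3 := dd_sq ha ha1 θ
        have h4 := lam_le_dd ha ha1 θ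
        have h5 := hdd_up θ
        have h6 : (dd a θ - lam a θ) * (dd a θ + lam a θ) = 2 * (1 - a) * lam a θ := by
          linear_combination h3
        have h7 : (dd a θ - lam a θ) * (dd a θ + lam a θ) ≤ (dd a θ - lam a θ) * (2 * |θ|) :=
          mul_le_mul_of_nonneg_left (by linarith) (by linarith)
        have h8 : 2 * (1 - a) * (a * (2 / Real.pi ^ 2 * θ ^ 2)) ≤ 2 * (1 - a) * lam a θ :=
          mul_le_mul_of_nonneg_left h2 (by linarith)
        have h9 : 2 * (1 - a) * (a * (2 / Real.pi ^ 2 * θ ^ 2)) = c * |θ| * (2 * |θ|) := by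
          rw [hc]
          have : θ ^ 2 = |θ| * |θ| := by rw [abs_mul_abs_self, sq]
          rw [this]
          ring
        have h10 : c * |θ| * (2 * |θ|) ≤ (dd a θ - lam a θ) * (2 * |θ|) := by linarith
        exact le_of_mul_le_mul_right h10 (by linarith)
    have hrhokey : ∀ θ : ℝ, |θ| ≤ Real.pi → rho a θ ≤ 1 - c * |θ| := by
      intro θ hθ
      have h1 := hkey θ hθ
      have h2 : 0 ≤ c * |θ| := by positivity
      have h3 : dd a θ - lam a θ ≤ (dd a θ - lam a θ) / (1 - a) := by
        rw [le_div_iff₀ hb]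
        have := lam_le_dd ha ha1 θ
        nlinarith
      unfold rho
      have h4 : (lam a θ - dd a θ) / (1 - a) = -((dd a θ - lam a θ) / (1 - a)) := by ring
      rw [h4]
      linarith
    refine ⟨c, 1 / (1 - a) + 1 + 1 / c + 1 / s + 2 / (c * s ^ 2), hc0, by positivity, ?_⟩
    intro θ hθ
    have hk := hkey θ hθ
    have hlow : c * |θ| ≤ dd a θ := by
      have := lam_nonneg ha θ
      linarith
    refine ⟨hlow, ?_, ?_, ?_, ?_⟩
    · refine (hdd_up θ).trans ?_
      have h1 : 1 * |θ| ≤ (1 / (1 - a) + 1 + 1 / c + 1 / s + 2 / (c * s ^ 2)) * |θ| := by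
        apply mul_le_mul_of_nonneg_right _ (abs_nonneg θ)
        have h2 : 0 < 1 / (1 - a) := by positivity
        have h3 : 0 < 1 / c := by positivity
        have h4 : 0 < 1 / s := by positivity
        have h5 : 0 < 2 / (c * s ^ 2) := by positivity
        linarith
      linarith
    · have h1 : 1 - rho a θ ≤ 1 / (1 - a) * |θ| := by
        unfold rho
        have h2 := hdd_up θ
        have h3 := lam_nonneg ha θ
        have h4 : (dd a θ - lam a θ) / (1 - a) ≤ |θ| / (1 - a) :=
          div_le_div_of_nonneg_right (by linarith) hb.le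
        have h5 : (lam a θ - dd a θ) / (1 - a) = -((dd a θ - lam a θ) / (1 - a)) := by ring
        rw [h5, one_div, inv_mul_eq_div]
        linarith
      refine h1.trans ?_
      apply mul_le_mul_of_nonneg_right _ (abs_nonneg θ)
      have h3 : 0 < 1 / c := by positivity
      have h4 : 0 < 1 / s := by positivity
      have h5 : 0 < 2 / (c * s ^ 2) := by positivity
      linarith
    · intro n
      have h1 : rho a θ ≤ Real.exp (-(c * |θ|)) :=
        (hrhokey θ hθ).trans (Real.one_sub_le_exp_neg _)
      calc rho a θ ^ n ≤ Real.exp (-(c * |θ|)) ^ n :=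
            pow_le_pow_left₀ (hrho_pos θ).le h1 n
        _ = Real.exp (-(c * n * |θ|)) := by
            rw [← Real.exp_nat_mul]
            congr 1
            ring
    · intro hθ0
      rw [← hs]
      have hθp : 0 < |θ| := abs_pos.2 hθ0
      have hDp : 0 < dd a θ := lt_of_lt_of_le (by positivity) hlow
      have hsum0 : 0 < 1 / (1 - a) := by positivity
      have hsum1 : 0 < 1 / c := by positivity
      have hsum2 : 0 < 1 / s := by positivity
      have hsum3 : 0 < 2 / (c * s ^ 2) := by positivity
      rcases le_total |θ| 1 with h1 | h1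
      · -- small angles
        have hcos := Real.cos_bound h1
        have h2 : |dd a θ ^ 2 - s ^ 2 * θ ^ 2| ≤ 2 * |θ| ^ 4 := by
          rw [dd_sq ha ha1, hs2]
          have h3 : lam a θ ^ 2 ≤ |θ| ^ 4 := by
            have h4 : lam a θ ≤ |θ| ^ 2 := by
              have := hlam_up θ
              rw [sq_abs]
              nlinarith [sq_nonneg θ]
            calc lam a θ ^ 2 ≤ (|θ| ^ 2) ^ 2 := pow_le_pow_left₀ (lam_nonneg ha θ) h4 2
              _ = |θ| ^ 4 := by ring
          have h5 : |2 * (1 - a) * lam a θ - a * (1 - a) * θ ^ 2| ≤ |θ| ^ 4 := by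
            have h6 : 2 * (1 - a) * lam a θ - a * (1 - a) * θ ^ 2 =
                -(2 * (1 - a) * a) * (Real.cos θ - (1 - θ ^ 2 / 2)) := by
              unfold lam
              ring
            rw [h6, abs_mul, abs_neg, abs_of_pos (by positivity : 0 < 2 * (1 - a) * a)]
            have h7 : 2 * (1 - a) * a ≤ 2 := by nlinarith
            calc 2 * (1 - a) * a * |Real.cos θ - (1 - θ ^ 2 / 2)|
                ≤ 2 * (|θ| ^ 4 * (5 / 96)) :=
                  mul_le_mul h7 hcos (abs_nonneg _) (by norm_num)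
              _ ≤ |θ| ^ 4 := by
                  have : 0 ≤ |θ| ^ 4 := by positivity
                  linarith
          have h8 : lam a θ ^ 2 + 2 * (1 - a) * lam a θ - a * (1 - a) * θ ^ 2 =
              lam a θ ^ 2 + (2 * (1 - a) * lam a θ - a * (1 - a) * θ ^ 2) := by ring
          rw [h8]
          refine (abs_add_le _ _).trans ?_
          rw [abs_of_nonneg (sq_nonneg (lam a θ))]
          linarith
        have h9 : 1 / dd a θ - 1 / (s * |θ|) =
            -((dd a θ ^ 2 - s ^ 2 * θ ^ 2) / (dd a θ * (s * |θ|) * (dd a θ + s * |θ|))) := by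
          have e1 : θ ^ 2 = |θ| ^ 2 := (sq_abs θ).symm
          rw [e1]
          have hsum : dd a θ + s * |θ| ≠ 0 := by positivity
          field_simp
          ring
        rw [h9, abs_neg, abs_div, abs_of_pos (by positivity :
          0 < dd a θ * (s * |θ|) * (dd a θ + s * |θ|))]
        have h10 : c * |θ| * (s * |θ|) * (s * |θ|) ≤
            dd a θ * (s * |θ|) * (dd a θ + s * |θ|) := by
          apply mul_le_mul
          · exact mul_le_mul_of_nonneg_right hlow (by positivity)
          · linarith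
          · positivity
          · positivity
        calc |dd a θ ^ 2 - s ^ 2 * θ ^ 2| / (dd a θ * (s * |θ|) * (dd a θ + s * |θ|))
            ≤ 2 * |θ| ^ 4 / (c * |θ| * (s * |θ|) * (s * |θ|)) :=
              div_le_div₀ (by positivity) h2 (by positivity) h10
          _ = 2 / (c * s ^ 2) * |θ| := by field_simp
          _ ≤ 2 / (c * s ^ 2) * 1 := mul_le_mul_of_nonneg_left h1 hsum3.le
          _ ≤ _ := by linarith
      · -- large angles
        have h2 : 1 / dd a θ ≤ 1 / c := by
          apply one_div_le_one_div_of_le hc0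
          nlinarith
        have h3 : 1 / (s * |θ|) ≤ 1 / s := by
          apply one_div_le_one_div_of_le hs0
          nlinarith
        have h4 : 0 < 1 / dd a θ := by positivity
        have h5 : 0 < 1 / (s * |θ|) := by positivity
        rw [abs_le]
        constructor <;> linarith

end Pool.Agent.Helper40.EXC
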